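import Mathlib
import Pool.Agent.H12.QfA

set_option autoImplicit false

namespace Pool.Agent.Results.MP_472c23_co.Counter

open PowerSeries

/-- `[m]! = (1-q)(1-q^2)...(1-q^m)` -/
noncomputable def qf (m : ℕ) : ℚ⟦X⟧ := ∏ i ∈ Finset.range m, (1 - X ^ (i + 1))

/-- the expansion of `F_n` in powers of `q` -/
noncomputable def F (n : ℕ) : ℚ⟦X⟧ := qf (6 * n) * qf n * (qf (3 * n) * qf (2 * n) ^ 2)⁻¹

/-- the expansion of `P_{4,n}` in powers of `q` -/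
noncomputable def P4 (n : ℕ) : ℚ⟦X⟧ :=
  (1 - X ^ 3) * (1 - X ^ 5) * (1 - X ^ 7) *
    ((1 - X ^ (2 * n + 3)) * (1 - X ^ (2 * n + 5)) * (1 - X ^ (2 * n + 7)))⁻¹ * F n

/-- the expansion of `P_{5,n}` in powers of `q` -/
noncomputable def P5 (n : ℕ) : ℚ⟦X⟧ :=
  (1 - X ^ 3) ^ 2 * (1 - X ^ 5) * (1 - X ^ 7) *
    ((1 - X ^ (2 * n + 1)) * (1 - X ^ (2 * n + 3)) * (1 - X ^ (2 * n + 5)) *
      (1 - X ^ (2 * n + 7)))⁻¹ * F n

open Pool.Agent.H12.Qf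

theorem pr_cons (a : ℕ) (L : List ℕ) :
    (pr ℚ (a :: L) : ℚ⟦X⟧) = (1 - X ^ a) * (pr ℚ L : ℚ⟦X⟧) := by simp [pr]

theorem pr_app (L M : List ℕ) :
    (pr ℚ (L ++ M) : ℚ⟦X⟧) = (pr ℚ L : ℚ⟦X⟧) * (pr ℚ M : ℚ⟦X⟧) := by simp [pr]

theorem pr_qf (m : ℕ) : (pr ℚ (List.range' 1 m) : ℚ⟦X⟧) = qf m := by
  induction m with
  | zero => simp [pr, qf]
  | succ m ih =>
    rw [List.range'_concat, pr_app, ih, pr_cons, qf, qf, Finset.prod_range_succ]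
    simp [pr, add_comm]

theorem cc (m : ℕ) : constantCoeff (qf m) ≠ 0 := by simp [qf]

theorem result : ((∀ Q : Polynomial ℚ, P4 10 ≠ Q) ∧ ∃ k, coeff k (P4 10) < 0) ∧
    ((∀ Q : Polynomial ℚ, P5 10 ≠ Q) ∧ ∃ k, coeff k (P5 10) < 0) := by
  have hF : F 10 * (qf 30 * qf 20 ^ 2) = qf 60 * qf 10 := by
    rw [F, mul_assoc, PowerSeries.inv_mul_cancel _ (by simp [cc]), mul_one]
  constructor
  · apply neg_coeff (3 :: 5 :: 7 :: (List.range' 1 60 ++ List.range' 1 10))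
      (23 :: 25 :: 27 :: (List.range' 1 30 ++ (List.range' 1 20 ++ List.range' 1 20)))
      (by decide) (by decide) (all_d _ _ (by decide) (by decide +kernel)) (by decide +kernel)
    simp only [pr_cons, pr_app, pr_qf]
    have h1 := PowerSeries.inv_mul_cancel
      ((1 - X ^ (2 * 10 + 3)) * (1 - X ^ (2 * 10 + 5)) * (1 - X ^ (2 * 10 + 7)) : ℚ⟦X⟧) (by simp)
    rw [← hF, P4]
    linear_combination (1 - X ^ 3) * (1 - X ^ 5) * (1 - X ^ 7) * F 10 * (qf 30 * qf 20 ^ 2) * h1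
  · apply neg_coeff (3 :: 3 :: 5 :: 7 :: (List.range' 1 60 ++ List.range' 1 10))
      (21 :: 23 :: 25 :: 27 :: (List.range' 1 30 ++ (List.range' 1 20 ++ List.range' 1 20)))
      (by decide) (by decide) (all_d _ _ (by decide) (by decide +kernel)) (by decide +kernel)
    simp only [pr_cons, pr_app, pr_qf]
    have h1 := PowerSeries.inv_mul_cancel
      ((1 - X ^ (2 * 10 + 1)) * (1 - X ^ (2 * 10 + 3)) * (1 - X ^ (2 * 10 + 5)) *
        (1 - X ^ (2 * 10 + 7)) : ℚ⟦X⟧) (by simp)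
    rw [← hF, P5]
    linear_combination
      (1 - X ^ 3) ^ 2 * (1 - X ^ 5) * (1 - X ^ 7) * F 10 * (qf 30 * qf 20 ^ 2) * h1

end Pool.Agent.Results.MP_472c23_co.Counter
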